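import Pool.Agent.Y972.FM.Prd

set_option autoImplicit false

/-!
# Project FM: `S_APX`, approximation by functions of finitely many digits
-/

open MeasureTheory

noncomputable section

namespace Pool.Agent.Y972.FM

open Pool.Agent.Y451.FM

/-- `s` depends only on the first `r` digits of the labels in the ball of radius `r` -/
def IsLev {n : ℕ} (r : ℕ) (s : Set (Om n)) : Prop :=
  ∀ b b' : Om n, (∀ v ∈ B n r, dg r (b v) = dg r (b' v)) → b ∈ s → b' ∈ s

/-- the algebra of all these sets -/
def Alg (n : ℕ) : Set (Set (Om n)) := {s | ∃ r, IsLev r s}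

theorem dg_mono {r r' : ℕ} (h : r ≤ r') {x y : unitInterval} (hxy : dg r' x = dg r' y) :
    dg r x = dg r y := by
  obtain ⟨d, rfl⟩ := Nat.exists_eq_add_of_le h
  have key : ∀ z : unitInterval, ⌊(z : ℝ) * 2 ^ r⌋₊ = ⌊(z : ℝ) * 2 ^ (r + d)⌋₊ / 2 ^ d := by
    intro z
    have h2 : ((2 : ℝ) ^ d) = ((2 ^ d : ℕ) : ℝ) := by push_cast; rfl
    rw [← Nat.floor_div_natCast, ← h2, pow_add]
    congr 1
    have : (2 : ℝ) ^ d ≠ 0 := by positivity
    field_simp
  have h3 : ⌊(x : ℝ) * 2 ^ (r + d)⌋₊ = ⌊(y : ℝ) * 2 ^ (r + d)⌋₊ := by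
    have := congrArg Fin.val hxy
    simpa [dg] using this
  apply Fin.ext
  simp only [dg]
  rw [key x, key y, h3]

theorem B_mono {n : ℕ} {r r' : ℕ} (h : r ≤ r') {v : Gp n} (hv : v ∈ B n r) : v ∈ B n r' := by
  rw [mem_B] at hv ⊢
  intro i
  exact (hv i).trans (by exact_mod_cast h)

theorem IsLev.mono {n : ℕ} {r r' : ℕ} (h : r ≤ r') {s : Set (Om n)} (hs : IsLev r s) :
    IsLev r' s := fun b b' hb => hs b b' fun v hv => dg_mono h (hb v (B_mono h hv))

theorem alg (n : ℕ) : IsSetAlgebra (Alg n) where
  empty_mem := ⟨0, fun b b' _ h => h.elim⟩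
  compl_mem := by
    rintro s ⟨r, hr⟩
    exact ⟨r, fun b b' hb h h' => h (hr b' b (fun v hv => (hb v hv).symm) h')⟩
  union_mem := by
    rintro s t ⟨r, hr⟩ ⟨r', hr'⟩
    refine ⟨max r r', fun b b' hb h => ?_⟩
    rcases h with h | h
    · exact Or.inl ((hr.mono (le_max_left _ _)) b b' hb h)
    · exact Or.inr ((hr'.mono (le_max_right _ _)) b b' hb h)

theorem lev_meas {n r : ℕ} {s : Set (Om n)} (hs : IsLev r s) : MeasurableSet s := by
  let D : Om n → ({v : Gp n // v ∈ B n r} → Fin (2 ^ r + 1)) := fun b v => dg r (b v.1)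
  have hD : Measurable D :=
    measurable_pi_lambda _ fun v => (measurable_dg r).comp (measurable_pi_apply v.1)
  have h1 : s = D ⁻¹' (D '' s) := by
    refine Set.Subset.antisymm (Set.subset_preimage_image _ _) ?_
    rintro b' ⟨b, hb, hbb⟩
    exact hs b b' (fun v hv => congrFun hbb ⟨v, hv⟩) hb
  rw [h1]
  exact hD (Set.toFinite _).measurableSet

theorem exists_ball {n : ℕ} (v : Gp n) : ∃ r, v ∈ B n r := by
  refine ⟨Finset.univ.sup fun i => (v i).natAbs, ?_⟩
  rw [mem_B]
  intro i
  have : (v i).natAbs ≤ Finset.univ.sup fun i => (v i).natAbs :=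
    Finset.le_sup (f := fun i => (v i).natAbs) (Finset.mem_univ i)
  rw [Int.abs_eq_natAbs]
  exact_mod_cast this

theorem gen (n : ℕ) :
    (MeasurableSpace.pi : MeasurableSpace (Om n)) = MeasurableSpace.generateFrom (Alg n) := by
  apply le_antisymm
  · refine iSup_le fun v => ?_
    rw [← measurable_iff_comap_le]
    have h1 : @Measurable _ _ (MeasurableSpace.generateFrom (Alg n)) _
        (fun b : Om n => ((b v : unitInterval) : ℝ)) := by
      obtain ⟨r₀, hr₀⟩ := exists_ball v
      refine @measurable_of_tendsto_metrizable _ _ (MeasurableSpace.generateFrom (Alg n)) _ _ _ _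
        (fun r b => ((dg (r + r₀) (b v)).val : ℝ) / 2 ^ (r + r₀)) _ ?_ ?_
      · intro r t _
        refine MeasurableSpace.measurableSet_generateFrom ⟨r + r₀, ?_⟩
        intro b b' hb h
        have := hb v (B_mono (Nat.le_add_left _ _) hr₀)
        simp only [Set.mem_preimage] at h ⊢
        rwa [← this]
      · rw [tendsto_pi_nhds]
        intro b
        have h2 : Filter.Tendsto (fun r : ℕ => ((1 : ℝ) / 2) ^ (r + r₀)) Filter.atTop
            (nhds 0) :=
          (tendsto_pow_atTop_nhds_zero_of_lt_one (by norm_num) (by norm_num)).comp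
            (Filter.tendsto_add_atTop_nat r₀)
        have h3 : Filter.Tendsto (fun r : ℕ => ((b v : unitInterval) : ℝ) -
            ((1 : ℝ) / 2) ^ (r + r₀)) Filter.atTop (nhds ((b v : unitInterval) : ℝ)) := by
          simpa using h2.const_sub ((b v : unitInterval) : ℝ)
        refine tendsto_of_tendsto_of_tendsto_of_le_of_le h3 tendsto_const_nhds ?_ ?_
        · intro r
          simp only [dg]
          have hp : (0 : ℝ) < 2 ^ (r + r₀) := by positivity
          rw [le_div_iff₀ hp]
          have := Nat.lt_floor_add_one (((b v : unitInterval) : ℝ) * 2 ^ (r + r₀))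
          have h4 : ((1 : ℝ) / 2) ^ (r + r₀) * 2 ^ (r + r₀) = 1 := by
            rw [← mul_pow]; norm_num
          rw [sub_mul, h4]
          linarith
        · intro r
          simp only [dg]
          have hp : (0 : ℝ) < 2 ^ (r + r₀) := by positivity
          rw [div_le_iff₀ hp]
          exact Nat.floor_le (mul_nonneg (b v).2.1 hp.le)
    exact Measurable.subtype_mk h1
  · refine MeasurableSpace.generateFrom_le ?_
    rintro s ⟨r, hr⟩
    exact lev_meas hr

/-- APX: measurable functions are approximated by functions of finitely many digits. -/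
theorem apx (n k : ℕ) (F : Om n → Fin k) (hF : Measurable F) (η : ℝ) (hη : 0 < η) :
    ∃ (r : ℕ) (Fr : (Gp n → Fin (2 ^ r + 1)) → Fin k),
      (∀ c c' : Gp n → Fin (2 ^ r + 1), (∀ v ∈ B n r, c v = c' v) → Fr c = Fr c') ∧
      (PP n).real {b | F b ≠ Fr (fun v => dg r (b v))} ≤ η := by
  classical
  have hd : (PP n).MeasureDense (Alg n) :=
    Measure.MeasureDense.of_generateFrom_isSetAlgebra_finite (PP n) (alg n) (gen n)
  have hη' : 0 < η / (k + 1) := by positivity
  have h1 : ∀ i : Fin k, ∃ t ∈ Alg n,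
      (PP n) (symmDiff (F ⁻¹' {i}) t) < ENNReal.ofReal (η / (k + 1)) := fun i =>
    hd.approx _ (hF (measurableSet_singleton i)) (measure_ne_top _ _) _ hη'
  choose t htA ht using h1
  choose rr hrr using htA
  let r := Finset.univ.sup rr
  have hlev : ∀ i, IsLev r (t i) := fun i =>
    (hrr i).mono (Finset.le_sup (f := rr) (Finset.mem_univ i))
  let i₀ : Fin k := F (fun _ => 0)
  let G : (Fin k → Prop) → Fin k := fun q => if h : ∃ i, q i then h.choose else i₀
  have hG : ∀ q : Fin k → Prop, (∃ i, q i) → q (G q) := by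
    intro q h
    simp only [G, dif_pos h]
    exact h.choose_spec
  let Q : (Gp n → Fin (2 ^ r + 1)) → Fin k → Prop := fun c i =>
    ∃ b ∈ t i, ∀ v ∈ B n r, dg r (b v) = c v
  refine ⟨r, fun c => G (Q c), ?_, ?_⟩
  · intro c c' h
    have : Q c = Q c' := by
      funext i
      apply propext
      constructor
      · rintro ⟨b, hb, h'⟩
        exact ⟨b, hb, fun v hv => (h' v hv).trans (h v hv)⟩
      · rintro ⟨b, hb, h'⟩
        exact ⟨b, hb, fun v hv => (h' v hv).trans (h v hv).symm⟩
    show G (Q c) = G (Q c')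
    rw [this]
  · have hsub : {b | F b ≠ G (Q fun v => dg r (b v))} ⊆
        ⋃ i : Fin k, symmDiff (F ⁻¹' {i}) (t i) := by
      intro b hb
      by_contra hcon
      simp only [Set.mem_iUnion, not_exists] at hcon
      have hiff : ∀ i, F b = i ↔ b ∈ t i := by
        intro i
        have := hcon i
        rw [Set.mem_symmDiff] at this
        push Not at this
        exact ⟨fun h => this.1 h, fun h => this.2 h⟩
      apply hb
      have hex : ∃ i, Q (fun v => dg r (b v)) i :=
        ⟨F b, b, (hiff _).1 rfl, fun v _ => rfl⟩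
      obtain ⟨b', hb', h'⟩ := hG _ hex
      exact (hiff _).2 (hlev _ b' b h' hb')
    calc (PP n).real {b | F b ≠ G (Q fun v => dg r (b v))}
        ≤ (PP n).real (⋃ i : Fin k, symmDiff (F ⁻¹' {i}) (t i)) :=
          measureReal_mono hsub
      _ ≤ ∑ i : Fin k, (PP n).real (symmDiff (F ⁻¹' {i}) (t i)) :=
          measureReal_iUnion_fintype_le _
      _ ≤ ∑ _i : Fin k, η / (k + 1) := by
          refine Finset.sum_le_sum fun i _ => ?_
          have := (ht i).le
          rw [Measure.real]
          exact ENNReal.toReal_le_of_le_ofReal hη'.le this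
      _ ≤ η := by
          rw [Finset.sum_const, Finset.card_univ, Fintype.card_fin, nsmul_eq_mul]
          have hk : (0 : ℝ) < k + 1 := by positivity
          rw [mul_div_assoc', div_le_iff₀ hk]
          nlinarith

/-- APX -/
theorem Apx.done : S_APX := fun n k F hF η hη => apx n k F hF η hη

end Pool.Agent.Y972.FM

end
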