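import Pool.Agent.Y451.FM.Stm

set_option autoImplicit false

/-!
# Project FM: `S_PRD`, independence and stationarity of the product measure
-/

open MeasureTheory

noncomputable section

namespace Pool.Agent.Y972.FM

open Pool.Agent.Y451.FM

theorem measurable_dg (r : ℕ) : Measurable (dg r) := by
  refine measurable_to_countable' fun i => ?_
  have h1 : Measurable (fun x : unitInterval => ⌊(x : ℝ) * 2 ^ r⌋₊) :=
    Nat.measurable_floor.comp (measurable_subtype_coe.mul_const _)
  have h2 : dg r ⁻¹' {i} = (fun x : unitInterval => ⌊(x : ℝ) * 2 ^ r⌋₊) ⁻¹' {i.val} := by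
    ext x
    simp only [Set.mem_preimage, Set.mem_singleton_iff, Fin.ext_iff, dg]
  rw [h2]
  exact h1 (measurableSet_singleton _)

theorem measurable_sh {n : ℕ} (g : Gp n) : Measurable (sh g : Om n → Om n) :=
  measurable_pi_lambda _ fun h => measurable_pi_apply (h + g)

theorem mp_sh (n : ℕ) (g : Gp n) : MeasurePreserving (sh g) (PP n) (PP n) := by
  refine ⟨measurable_sh g, ?_⟩
  refine Measure.eq_infinitePi _ fun s t ht => ?_
  rw [Measure.map_apply (measurable_sh g)
    (MeasurableSet.pi (Finset.countable_toSet s) fun i _ => ht i)]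
  have h1 : (sh g : Om n → Om n) ⁻¹' (Set.pi (s : Set (Gp n)) t) =
      Set.pi ((s.map (addRightEmbedding g) : Finset (Gp n)) : Set (Gp n))
        (fun h => t (h - g)) := by
    ext b
    simp only [Set.mem_preimage, Set.mem_pi, Finset.mem_coe, Finset.mem_map,
      addRightEmbedding_apply, sh]
    constructor
    · rintro h v ⟨w, hw, rfl⟩
      rw [add_sub_cancel_right]
      exact h w hw
    · intro h w hw
      have := h (w + g) ⟨w, hw, rfl⟩
      rwa [add_sub_cancel_right] at this
  rw [h1]
  unfold PP
  rw [Measure.infinitePi_pi _ (fun i _ => ht _), Finset.prod_map]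
  refine Finset.prod_congr rfl fun i _ => ?_
  simp only [addRightEmbedding_apply, add_sub_cancel_right]

theorem indep (n r m : ℕ) (e : Fin m → Gp n) (he : Function.Injective e)
    (c : Fin m → Fin (2 ^ r + 1)) :
    (PP n).real {b | ∀ i, dg r (b (e i)) = c i} =
      ∏ i, (volume : Measure unitInterval).real {x | dg r x = c i} := by
  have h1 : {b : Om n | ∀ i, dg r (b (e i)) = c i} =
      Set.pi (((Finset.univ : Finset (Fin m)).map ⟨e, he⟩ : Finset (Gp n)) : Set (Gp n))
        (fun v => {x | ∀ j, e j = v → dg r x = c j}) := by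
    ext b
    simp only [Set.mem_ofPred_eq, Set.mem_pi, Finset.mem_coe, Finset.mem_map, Finset.mem_univ,
      true_and, Function.Embedding.coeFn_mk]
    constructor
    · rintro h v ⟨i, rfl⟩ j hj
      rw [← hj]
      exact h j
    · intro h i
      exact h (e i) ⟨i, rfl⟩ i rfl
  have hm : ∀ v : Gp n, MeasurableSet {x : unitInterval | ∀ j, e j = v → dg r x = c j} := by
    intro v
    have : {x : unitInterval | ∀ j, e j = v → dg r x = c j} =
        ⋂ j : Fin m, {x | e j = v → dg r x = c j} := by
      ext x
      simp only [Set.mem_ofPred_eq, Set.mem_iInter]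
    rw [this]
    refine MeasurableSet.iInter fun j => ?_
    by_cases hj : e j = v
    · have : {x : unitInterval | e j = v → dg r x = c j} = dg r ⁻¹' {c j} := by
        ext x
        simp [hj]
      rw [this]
      exact measurable_dg r (measurableSet_singleton _)
    · have : {x : unitInterval | e j = v → dg r x = c j} = Set.univ := by
        ext x
        simp [hj]
      rw [this]
      exact MeasurableSet.univ
  rw [h1, Measure.real]
  unfold PP
  rw [Measure.infinitePi_pi _ (fun i _ => hm _), Finset.prod_map, ENNReal.toReal_prod]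
  refine Finset.prod_congr rfl fun i _ => ?_
  rw [Measure.real]
  congr 2
  ext x
  simp only [Function.Embedding.coeFn_mk, Set.mem_ofPred_eq]
  constructor
  · intro h
    exact h i rfl
  · intro h j hj
    rw [he hj]
    exact h

/-- PRD: independence and stationarity. -/
theorem done : S_PRD :=
  ⟨measurable_dg, mp_sh, indep⟩

end Pool.Agent.Y972.FM

end
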